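import Pool.Agent.Helper19.HN.St

/-! # HN, module ENM: the enumeration of `V_c` of HOD -/

namespace Pool.Agent.Helper7.HN.ENM

open Ordinal Cardinal ZFSet Order Pool.Agent.Helper73.HODC Pool.Agent.Helper73.HM
open Pool.Agent.Helper73.HE Pool.Agent.Helper73.HU Pool.Agent.Helper19.HN

/-- an injective function on the ordinals below `c.ord` has no bound below `c.ord` -/
theorem no_inj {c : Cardinal.{0}} {j : Ordinal.{0}} (hj : j < c.ord)
    (f : Ordinal.{0} → Ordinal.{0}) (hf : ∀ b < c.ord, f b < j)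
    (hinj : ∀ b < c.ord, ∀ b' < c.ord, f b = f b' → b = b') : False := by
  let g : Set.Iio c.ord → Set.Iio j := fun b => ⟨f b.1, hf b.1 b.2⟩
  have hg : Function.Injective g := by
    intro b b' h
    exact Subtype.ext (hinj b.1 b.2 b'.1 b'.2 (congrArg Subtype.val h))
  have h1 := Cardinal.mk_le_of_injective hg
  rw [Cardinal.mk_Iio_ordinal, Cardinal.mk_Iio_ordinal, Cardinal.lift_le, Cardinal.card_ord] at h1
  exact absurd h1 (not_le.2 (Cardinal.lt_ord.1 hj))

/-- fewer than `c` ordinals below `c.ord` are bounded -/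
theorem bound {c : Cardinal.{0}} (hc : c.IsRegular) (hc' : ℵ₀ < c) {i : Ordinal.{0}}
    (hi : i < c.ord) (b : Ordinal.{0} → Ordinal.{0}) (hb : ∀ k < i, b k < c.ord) :
    ∃ B < c.ord, ∀ k < i, b k < B := by
  have hτ : IsSuccLimit c.ord := isSuccLimit_of_cof (by rw [hc.cof_ord]; exact hc')
  have h1 := Club.biInter hc hc' hi (C := fun k => {a | b k < a}) fun k hk =>
    club_Ioi hτ (hb k hk)
  have h0 : (0 : Ordinal.{0}) < c.ord := lt_of_le_of_lt zero_le hi
  obtain ⟨a, ha, -, hac⟩ := h1.1 0 h0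
  exact ⟨a, hac, ha⟩

theorem enm (h1 : StHLD) (h2 : StHLO) (h3 : StENU) : StENM := by
  intro c hc hc' hfew
  obtain ⟨L, hLd, hL⟩ := h1
  obtain ⟨hirr, htr, htri, hwf⟩ := h2 L hL
  have hτ : IsSuccLimit c.ord := isSuccLimit_of_cof (by rw [hc.cof_ord]; exact hc')
  obtain ⟨α, e, hdp, hT, hmono, hsur⟩ := h3 L (fun x => HOD x ∧ x.rank < c.ord) c.ord
    (DP.of hLd) ((DP.of (dfn_HOD 0)).and (DP.rank_lt_ord 0 c.ord)) (fun x hx => hx.2) hirr
    (fun x y z hx hy hz => htr x y z hx.1 hy.1 hz.1) (fun x y hx hy => htri x y hx.1 hy.1) (by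
      intro P hP
      obtain ⟨x, hx, hPx⟩ := hP
      obtain ⟨y, hy, ⟨hyT, hyP⟩, hmin⟩ := hwf (fun x => (HOD x ∧ x.rank < c.ord) ∧ P x)
        ⟨x, hx.1, hx, hPx⟩
      exact ⟨y, hyT, hyP, fun z hz hLz hPz => hmin z hz.1 hLz ⟨hz, hPz⟩⟩)
  -- the ranks increase
  have hrk : ∀ a < α, ∀ b < α, a ≤ b → (e a).rank ≤ (e b).rank := by
    intro a ha b hb hab
    rcases hab.eq_or_lt with h | h
    · rw [h]
    · rcases (hL _ _).1 (hmono a ha b hb h) with h4 | ⟨h4, -⟩
      · exact h4.le
      · exact h4.le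
  have hinj : ∀ a < α, ∀ b < α, e a = e b → a = b := by
    intro a ha b hb hab
    rcases lt_trichotomy a b with h | h | h
    · have h4 := hmono a ha b hb h
      rw [hab] at h4
      exact absurd h4 (hirr _)
    · exact h
    · have h4 := hmono b hb a ha h
      rw [hab] at h4
      exact absurd h4 (hirr _)
  -- definability of the codes
  have hcode : ∀ x, HOD x → DPs {a | e a ∈ x} := by
    intro x hx
    refine dp_subst (Q := fun x v => e (v 0).rank ∈ x) hx ?_
    refine DP.congr (Q := fun v => ∃ y, y = e (v 1).rank ∧ y ∈ v 0) ?_ fun v => by simp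
    refine DP.ex (Q := fun y v => y = e (v 1).rank ∧ y ∈ v 0) (DP.and ?_ (DP.mem 0 1))
    exact hdp.rename (fun n => if n = 0 then 0 else 2)
  -- the bound
  have hbdd : ∀ i < c.ord, ∃ b < c.ord, ∀ a < α, (e a).rank < i → a < b := by
    intro i
    induction i using WellFoundedLT.induction with
    | ind i ih =>
      intro hi
      have hch : ∀ k, ∃ b, k < i → b < c.ord ∧ ∀ a < α, (e a).rank < k → a < b := by
        intro k
        by_cases hk : k < i
        · obtain ⟨b, hb1, hb2⟩ := ih k hk (hk.trans hi)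
          exact ⟨b, fun _ => ⟨hb1, hb2⟩⟩
        · exact ⟨0, fun h => absurd h hk⟩
      choose b hb using hch
      obtain ⟨B, hBc, hB⟩ := bound hc hc' hi b fun k hk => (hb k hk).1
      obtain ⟨j, hj, E, hE⟩ := hfew B hBc
      by_contra hcon
      push Not at hcon
      -- all ordinals below `c` are indices of sets of rank less than `i`
      have hall : ∀ d < c.ord, d < α ∧ (e d).rank < i := by
        intro d hd
        obtain ⟨a, ha, har, hda⟩ := hcon d hd
        exact ⟨hda.trans_lt ha, (hrk d (hda.trans_lt ha) a ha hda).trans_lt har⟩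
      have hmem : ∀ d < c.ord, ∃ k < j, E k = ordSet B {a | e a ∈ e d} := by
        intro d hd
        refine hE _ (mem_hodPow.2 ⟨ordSet_sub _ _, od_ordSet (hcode _ (hT d (hall d hd).1).1) B⟩)
      have hmem' : ∀ d, ∃ k, d < c.ord → k < j ∧ E k = ordSet B {a | e a ∈ e d} := by
        intro d
        by_cases hd : d < c.ord
        · obtain ⟨k, hk⟩ := hmem d hd
          exact ⟨k, fun _ => hk⟩
        · exact ⟨0, fun h => absurd h hd⟩
      choose f hf using hmem'
      -- the code determines the set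
      have hdet : ∀ d < c.ord, ∀ y, y ∈ e d ↔ ∃ a < α, e a = y ∧
          a ∈ st (ordSet B {a | e a ∈ e d}) := by
        intro d hd y
        constructor
        · intro hy
          have hyr : y.rank < (e d).rank := rank_lt_of_mem hy
          have hyH : HOD y := HOD_elem (hT d (hall d hd).1).1 hy
          obtain ⟨a, ha, hay⟩ := hsur y ⟨hyH, hyr.trans (hT d (hall d hd).1).2⟩
          refine ⟨a, ha, hay, mem_st_ordSet.2 ⟨?_, ?_⟩⟩
          · have h5 := (hb (e d).rank (hall d hd).2).2 a ha (by rw [hay]; exact hyr)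
            exact h5.trans (hB _ (hall d hd).2)
          · show e a ∈ e d
            rw [hay]
            exact hy
        · rintro ⟨a, -, hay, ha⟩
          have h5 : e a ∈ e d := (mem_st_ordSet.1 ha).2
          rw [hay] at h5
          exact h5
      refine no_inj hj f (fun d hd => (hf d hd).1) fun d hd d' hd' h => ?_
      have h5 : ordSet B {a | e a ∈ e d} = ordSet B {a | e a ∈ e d'} := by
        rw [← (hf d hd).2, ← (hf d' hd').2, h]
      refine hinj d (hall d hd).1 d' (hall d' hd').1 ?_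
      ext y
      rw [hdet d hd y, hdet d' hd' y, h5]
  -- the length
  have hα : c.ord ≤ α := by
    by_contra hcon
    push Not at hcon
    have hch : ∀ o : Ordinal.{0}, ∃ a, o < c.ord → a < α ∧ e a = o.toZFSet := by
      intro o
      by_cases ho : o < c.ord
      · obtain ⟨a, ha, hao⟩ := hsur o.toZFSet ⟨HOD_toZFSet o, by rw [rank_toZFSet]; exact ho⟩
        exact ⟨a, fun _ => ⟨ha, hao⟩⟩
      · exact ⟨0, fun h => absurd h ho⟩
    choose f hf using hch
    refine no_inj hcon f (fun d hd => (hf d hd).1) fun d hd d' hd' h => ?_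
    have h5 : d.toZFSet = d'.toZFSet := by
      rw [← (hf d hd).2, ← (hf d' hd').2, h]
    have h6 := congrArg rank h5
    rwa [rank_toZFSet, rank_toZFSet] at h6
  refine ⟨e, hdp, fun a ha => hT a (ha.trans_le hα), fun a ha b hb h =>
    hinj a (ha.trans_le hα) b (hb.trans_le hα) h, ?_, ?_⟩
  · intro x hx hxr
    obtain ⟨a, ha, hax⟩ := hsur x ⟨hx, hxr⟩
    obtain ⟨b, hb, hb'⟩ := hbdd (Order.succ x.rank) (hτ.succ_lt hxr)
    refine ⟨a, (hb' a ha ?_).trans hb, hax⟩
    rw [hax]
    exact Order.lt_succ _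
  · intro i hi
    obtain ⟨b, hb, hb'⟩ := hbdd i hi
    exact ⟨b, hb, fun a ha h => hb' a (ha.trans_le hα) h⟩

end Pool.Agent.Helper7.HN.ENM
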